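import Pool.Agent.Helper70.BN.St1

/-!
# Project BN, module RTWO: rank two
-/

set_option autoImplicit false

namespace Pool.Agent.Helper61.BN

open Pool.Agent.Helper70.BN

section basics

variable {l : ℕ} {A : Fin l → Fin l → ℤ}

/-- the reflection on `x α_i + y α_j` -/
theorem sr_lin (h : ∀ i, A i i = 2) (i j : Fin l) (x y : ℤ) :
    sr A i (x • al i + y • al j) = (-x - A j i * y) • al i + y • al j := by
  rw [sr_add, sr_smul, sr_smul, sr_al_self h, sr_al]
  module

/-- the reflection on `v - x α_i - y α_j` -/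
theorem sr_aff (h : ∀ i, A i i = 2) (i j : Fin l) (v : Fin l → ℤ) (x y : ℤ) :
    sr A i (v - x • al i - y • al j) = v - ((∑ k, v k * A k i) - x - A j i * y) • al i - y • al j := by
  have e : v - x • al i - y • al j = v + ((-x) • al i + (-y) • al j) := by module
  rw [e, sr_add, sr_lin h, sr_eq i v]
  module

/-- the other reflection on `v - x α_i - y α_j` -/
theorem sr_aff' (h : ∀ i, A i i = 2) (i j : Fin l) (v : Fin l → ℤ) (x y : ℤ) :
    sr A j (v - x • al i - y • al j) = v - x • al i - ((∑ k, v k * A k j) - y - A i j * x) • al j := by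
  have e : v - x • al i - y • al j = v - y • al j - x • al i := by module
  rw [e, sr_aff h j i]
  module

end basics

theorem hRTWO : StRTWO := by
  intro l A d Φ hRS i j hij
  have h := hRS.diag
  have hii : sr A i (al i) = -al i := sr_al_self h i
  have hjj : sr A j (al j) = -al j := sr_al_self h j
  have hi : ∀ x y : ℤ, sr A i (x • al i + y • al j) = (-x - A j i * y) • al i + y • al j := sr_lin h i j
  have hj : ∀ x y : ℤ, sr A j (x • al i + y • al j) = x • al i + (-y - A i j * x) • al j := by
    intro x y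
    rw [add_comm, sr_lin h j i]
    module
  have wi : ∀ (v : Fin l → ℤ) (x y : ℤ), sr A i (v - x • al i - y • al j) =
      v - ((∑ k, v k * A k i) - x - A j i * y) • al i - y • al j := sr_aff h i j
  have wj : ∀ (v : Fin l → ℤ) (x y : ℤ), sr A j (v - x • al i - y • al j) =
      v - x • al i - ((∑ k, v k * A k j) - y - A i j * x) • al j := sr_aff' h i j
  have ei : (al i : Fin l → ℤ) = (1 : ℤ) • al i + (0 : ℤ) • al j := by module
  have ej : (al j : Fin l → ℤ) = (0 : ℤ) • al i + (1 : ℤ) • al j := by module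
  have ev : ∀ v : Fin l → ℤ, v = v - (0 : ℤ) • al i - (0 : ℤ) • al j := by intro v; module
  have r2 : ∀ a b : Fin l, rts A (alt a b 2) = [al a, sr A a (al b)] := by
    intro a b; simp [alt, rts]
  have r3 : ∀ a b : Fin l, rts A (alt a b 3) = [al a, sr A a (al b), sr A a (sr A b (al a))] := by
    intro a b; simp [alt, rts]
  have r4 : ∀ a b : Fin l, rts A (alt a b 4) = [al a, sr A a (al b), sr A a (sr A b (al a)),
      sr A a (sr A b (sr A a (al b)))] := by
    intro a b; simp [alt, rts]
  have sij : sr A i (al j) = (-A j i) • al i + (1 : ℤ) • al j := by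
    rw [ej, hi]; module
  have sji : sr A j (al i) = (1 : ℤ) • al i + (-A i j) • al j := by
    rw [ei, hj]; module
  rcases hRS.off i j hij with ⟨a1, a2⟩ | ⟨a1, a2⟩ | ⟨a1, a2⟩ | ⟨a1, a2⟩
  · have hm : mm A i j = 2 := by simp [mm, a1, a2]
    refine ⟨?_, Or.inl ⟨a1, a2, hm, ?_, ?_⟩⟩
    · intro v
      rw [hm]
      simp only [alt, wa]
      rw [ev v]
      simp only [wi, wj, a1, a2]
      module
    · rw [r2, sij, a2]; congr 2; module
    · rw [r2, sji, a1]; congr 2; module
  · have hm : mm A i j = 3 := by simp [mm, a1, a2]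
    refine ⟨?_, Or.inr (Or.inl ⟨a1, a2, hm, ?_, ?_⟩)⟩
    · intro v
      rw [hm]
      simp only [alt, wa]
      rw [ev v]
      simp only [wi, wj, a1, a2]
      module
    · rw [r3, sji, sij, hi, a1, a2]; congr 2 <;> [module; (congr 1; module)]
    · rw [r3, sij, sji, hj, a1, a2]; congr 2 <;> [module; (congr 1; module)]
  · have hm : mm A i j = 4 := by simp [mm, a1, a2]
    refine ⟨?_, Or.inr (Or.inr (Or.inl ⟨a1, a2, hm, ?_, ?_⟩))⟩
    · intro v
      rw [hm]
      simp only [alt, wa]
      rw [ev v]
      simp only [wi, wj, a1, a2]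
      module
    · rw [r4, sji, sij, hi, hj, hi, a1, a2]
      congr 2 <;> [module; (congr 1 <;> [module; (congr 1; module)])]
    · rw [r4, sij, sji, hj, hi, hj, a1, a2]
      congr 2 <;> [module; (congr 1 <;> [module; (congr 1; module)])]
  · have hm : mm A i j = 4 := by simp [mm, a1, a2]
    refine ⟨?_, Or.inr (Or.inr (Or.inr ⟨a1, a2, hm, ?_, ?_⟩))⟩
    · intro v
      rw [hm]
      simp only [alt, wa]
      rw [ev v]
      simp only [wi, wj, a1, a2]
      module
    · rw [r4, sji, sij, hi, hj, hi, a1, a2]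
      congr 2 <;> [module; (congr 1 <;> [module; (congr 1; module)])]
    · rw [r4, sij, sji, hj, hi, hj, a1, a2]
      congr 2 <;> [module; (congr 1 <;> [module; (congr 1; module)])]

end Pool.Agent.Helper61.BN
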